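import Mathlib
import Pool.Agent.Helper55.BD.Main

/-!
# MP_bd7e56_nt: the limit `S_N(a) → 1` for every complex `a`

`eta` is the Dirichlet eta function (entire).  For every complex `a` the determinant `G_N(a)` is
nonzero for all large `N` and `S_N(a) = H_N(a)/G_N(a) → 1`.  So Q1 holds with the empty
exceptional set.
-/

open Filter Topology

namespace Pool.Agent.Results.MP_bd7e56_nt.AllComplex

/-- The Dirichlet eta function `η(s) = (1 - 2^(1-s)) ζ(s)`, an entire function; the value at the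
removable singularity `s = 1` is `log 2`. -/
noncomputable def eta (s : ℂ) : ℂ :=
  if s = 1 then (Real.log 2 : ℂ) else (1 - (2 : ℂ) ^ (1 - s)) * riemannZeta s

/-- The Hankel determinant `H_N(a) = det (η^{(j+k)}(a))_{0 ≤ j,k ≤ N-1}`. -/
noncomputable def H (N : ℕ) (a : ℂ) : ℂ :=
  (Matrix.of fun j k : Fin N => iteratedDeriv ((j : ℕ) + (k : ℕ)) eta a).det

/-- The Hankel determinant `G_N(a) = det (η^{(j+k+2)}(a))_{0 ≤ j,k ≤ N-2}` (equal to `1` for
`N = 1`). -/
noncomputable def G (N : ℕ) (a : ℂ) : ℂ :=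
  (Matrix.of fun j k : Fin (N - 1) => iteratedDeriv ((j : ℕ) + (k : ℕ) + 2) eta a).det

/-- For every complex `a`, `G_N(a) ≠ 0` for all large `N` and `S_N(a) = H_N(a)/G_N(a) → 1`. -/
theorem result (a : ℂ) :
    (∀ᶠ N : ℕ in atTop, G N a ≠ 0) ∧
      Tendsto (fun N : ℕ => H N a / G N a) atTop (𝓝 1) :=
  Pool.Agent.Helper55.BD.main a

end Pool.Agent.Results.MP_bd7e56_nt.AllComplex
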